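import Pool.Agent.Helper97.BddExp

/-!
# MP_6ec0c0_co, a positive answer for groups of bounded exponent

Let `N ≥ 2`, let `P` be a bound for the prime factors of `N` and let `δ > 0`. Let `Λ` be a subset of
an abelian group `G` and let `φ` be a map to an abelian group `H` with `N • H = 0` which sends
relations with coefficients `-1, 0, 1` between elements of `Λ` to relations (for instance `G = H`
and the identity map). If every finite subset `A` of `Λ` has a subset `B` with `|B| ≥ δ |A|` on
which `φ` is quasi-independent, then `Λ` is a union of `⌈log₂ P / δ⌉ * Ω N` quasi-independent sets,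
where `Ω N` is the number of prime factors of `N`, counted with multiplicity.
-/

open Pool.Agent.Helper97.BddExp

open scoped ArithmeticFunction.Omega

namespace Pool.Agent.Results.MP_6ec0c0_co.BoundedExponentUnion

/-- Proportional quasi-independence modulo `N` gives a finite union of quasi-independent sets. -/
theorem result.{u} {N P : ℕ} (hN : 2 ≤ N) (hP : ∀ p : ℕ, p.Prime → p ∣ N → p ≤ P) {δ : ℝ}
    (hδ : 0 < δ) {G H : Type u} [AddCommGroup G] [AddCommGroup H] (hH : ∀ h : H, N • h = 0)
    (Λ : Set G) (φ : G → H) (hφ : PreservesRelations φ Λ) (hprop : ProportionalVia φ δ Λ) :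
    ∃ T : Fin (⌈Real.logb 2 P / δ⌉₊ * Ω N) → Set G, (∀ i, QuasiIndependent (T i)) ∧
      Λ = ⋃ i, T i :=
  main hN hP hδ hH Λ φ hφ hprop

end Pool.Agent.Results.MP_6ec0c0_co.BoundedExponentUnion
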