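import Pool.Agent.NU.NVb

/-!
# MP_6ec0c0_co, logarithmically many parts for relations of bounded length

Let `Λ` be a subset of an abelian group with the proportional property for `δ > 0` and let
`s ≥ 2`. Then `Λ` is a union of `2 (⌈4 log s / δ⌉ + 1)` sets, all of whose subsets with at most `s`
elements are quasi-independent.
-/

open Pool.Agent.NU

namespace Pool.Agent.Results.MP_6ec0c0_co.LogLengthUnion

/-- Sets with the proportional property are unions of `O(log s / δ)` sets without relations with
at most `s` terms. -/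
theorem result.{u} {G : Type u} [AddCommGroup G] {δ : ℝ} (hδ : 0 < δ) {s : ℕ} (hs : 2 ≤ s)
    {Λ : Set G} (hΛ : Proportional δ Λ) :
    ∃ T : Fin (2 * (⌈4 * Real.log s / δ⌉₊ + 1)) → Set G, Λ = ⋃ i, T i ∧
      ∀ i, ∀ C : Finset G, (↑C : Set G) ⊆ T i → C.card ≤ s → MIndep 1 C :=
  short_main hδ hs hΛ

end Pool.Agent.Results.MP_6ec0c0_co.LogLengthUnion
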