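import Pool.Agent.GLL.GM

/-!
# A proportional set is a union of O(log log n) sets which are 2-colourable up to size n

`Pool.Agent.NU.Proportional δ Λ`: every finite `A ⊆ Λ` contains `B` with distinct subset sums and
`|B| ≥ δ |A|`.
`rel t A y`: sum of `t ^ (|C| + |D|)` over the pairs of disjoint subsets `C, D` of `A` with
`∑ C = ∑ D + y`.
`numParts δ n`: the number `2 (⌈32 (1 + log (1 + log n)) / δ⌉ + 1)`.
-/

namespace Pool.Agent.Results.MP_6ec0c0_co.LogLogUnion

open Pool.Agent.NU Pool.Agent.GLL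

theorem result {G : Type*} [AddCommGroup G] [IsAddTorsionFree G] {δ : ℝ} (hδ : 0 < δ) {Λ : Set G}
    (hΛ : Proportional δ Λ) {n : ℕ} (hn : 1 ≤ n) :
    ∃ T : Fin (numParts δ n) → Set G, Λ = ⋃ i, T i ∧ ∀ i, ∀ A : Finset G, (↑A : Set G) ⊆ T i →
      rel (1 / 2) A 0 ≤ (1 + 1 / (2 * n)) ^ A.card ∧
      (A.card ≤ n → ∃ B C : Finset G, (A : Set G) = (B : Set G) ∪ (C : Set G) ∧
        DistinctSums B ∧ DistinctSums C) :=
  main hδ hΛ hn

end Pool.Agent.Results.MP_6ec0c0_co.LogLogUnion
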